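import Pool.Agent.H461R3.JV.Defs
import Pool.Agent.H461R3.JV.Fin

namespace Pool.Agent.Results.MP_a43909_al.JordanCharThree

open Pool.Agent.H461R3.JV

universe u

/-- Over every field `F` of characteristic 3 there is a variety of Jordan algebras, all of them
solvable of index 3, that is not defined by any finite set of identities. -/
theorem result (F : Type u) [Field F] [CharP F 3] :
    ∃ S : Set (FreeNonUnitalNonAssocAlgebra F ℕ),
      (∀ (A : Type u) [NonUnitalNonAssocRing A] [Module F A] [IsScalarTower F A A]
        [SMulCommClass F A A], InVariety F S A → IsJordanAlgebra A ∧ derivedPower F A 3 = ⊥) ∧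
      ¬ IsFinitelyBased F S :=
  ⟨SS F, fun A _ _ _ _ h => SS_jordan A h, not_fb F⟩

end Pool.Agent.Results.MP_a43909_al.JordanCharThree
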